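import Mathlib

set_option autoImplicit false

namespace Pool.Agent.Results.MP_7d4b8e_co.Padding

open Finset
open scoped Classical

/-- The image in `ℝ / lam ℤ` of the half-open interval `[x, x+1)`. -/
def arc (lam x : ℝ) : Set (AddCircle lam) :=
  (fun t : ℝ => (t : AddCircle lam)) '' Set.Ico x (x + 1)

/-- A unit arc on the circle of circumference `lam`. -/
def IsUnitArc (lam : ℝ) (S : Set (AddCircle lam)) : Prop := ∃ x : ℝ, S = arc lam x

/-- Max load: the largest number of arcs of `A` containing one common point. -/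
noncomputable def load {lam : ℝ} (A : Finset (Set (AddCircle lam))) : ℕ :=
  sSup {n : ℕ | ∃ p : AddCircle lam, n = (A.filter (fun S => p ∈ S)).card}

/-- `A` has a proper `l`-colouring. -/
def Colourable {lam : ℝ} (A : Finset (Set (AddCircle lam))) (l : ℕ) : Prop :=
  ∃ c : A → Fin l, ∀ S T : A, S ≠ T → (S.1 ∩ T.1).Nonempty → c S ≠ c T

/-- Chromatic number: the least `l` with a proper `l`-colouring. -/
noncomputable def chi {lam : ℝ} (A : Finset (Set (AddCircle lam))) : ℕ :=
  sInf {l : ℕ | Colourable A l}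

lemma coe_shift (lam t : ℝ) (z : ℤ) :
    ((t + z * lam : ℝ) : AddCircle lam) = (t : AddCircle lam) := by
  rw [QuotientAddGroup.eq]
  refine ⟨-z, ?_⟩
  simp

lemma arc_shift (lam x : ℝ) (z : ℤ) : arc lam (x + z * lam) = arc lam x := by
  ext p
  constructor
  · rintro ⟨t, ⟨h1, h2⟩, rfl⟩
    refine ⟨t + ((-z : ℤ) : ℝ) * lam, ⟨by push_cast; linarith, by push_cast; linarith⟩, ?_⟩
    exact coe_shift lam t (-z)
  · rintro ⟨t, ⟨h1, h2⟩, rfl⟩
    exact ⟨t + z * lam, ⟨by linarith, by linarith⟩, coe_shift lam t z⟩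

lemma norm_arc {lam : ℝ} (hl : 2 ≤ lam) {S : Set (AddCircle lam)} (h : IsUnitArc lam S) :
    ∃ y : ℝ, 0 ≤ y ∧ y < lam ∧ S = arc lam y := by
  obtain ⟨x, rfl⟩ := h
  have hp : 0 < lam := by linarith
  have h1 := Int.floor_le (x / lam)
  have h2 := Int.lt_floor_add_one (x / lam)
  rw [le_div_iff₀ hp] at h1
  rw [div_lt_iff₀ hp] at h2
  refine ⟨x + ((-⌊x / lam⌋ : ℤ) : ℝ) * lam, ?_, ?_, (arc_shift lam x _).symm⟩
  · push_cast; linarith
  · push_cast; linarith

lemma core {lam : ℝ} (hl : 2 ≤ lam) {M L : ℕ} (hd : L ∣ M) (y : Fin M → ℝ) (hm : Monotone y)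
    (h0 : ∀ i, 0 ≤ y i) (h1 : ∀ i, y i < lam)
    (hload : ∀ p : AddCircle lam, (univ.filter (fun i => p ∈ arc lam (y i))).card ≤ L)
    (i j : Fin M) (hij : i < j) (hn : (arc lam (y i) ∩ arc lam (y j)).Nonempty) :
    i.1 % L ≠ j.1 % L := by
  intro hmod
  have hij' : i.1 < j.1 := hij
  have hdvd : L ∣ j.1 - i.1 := Nat.dvd_of_mod_eq_zero (Nat.sub_mod_eq_zero_of_mod_eq hmod.symm)
  obtain ⟨p, ⟨s, ⟨hs1, hs2⟩, hs⟩, ⟨t, ⟨ht1, ht2⟩, ht⟩⟩ := hn
  have hst : (s : AddCircle lam) = (t : AddCircle lam) := hs.trans ht.symm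
  rw [QuotientAddGroup.eq] at hst
  obtain ⟨z, hz⟩ := hst
  simp only [zsmul_eq_mul] at hz
  have hyij := hm hij.le
  have hi0 := h0 i
  have hj1 := h1 j
  have hz0 : 0 ≤ z := by
    by_contra hc
    have : z ≤ -1 := by omega
    have : (z : ℝ) ≤ -1 := by exact_mod_cast this
    nlinarith
  have hz1 : z ≤ 1 := by
    by_contra hc
    have : 2 ≤ z := by omega
    have : (2 : ℝ) ≤ z := by exact_mod_cast this
    nlinarith
  have hzz : z = 0 ∨ z = 1 := by omega
  rcases hzz with rfl | rfl
  · have hts : t = s := by simp at hz; linarith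
    have hsub : Icc i j ⊆ univ.filter (fun k => ((y j : ℝ) : AddCircle lam) ∈ arc lam (y k)) := by
      intro k hk
      rw [mem_Icc] at hk
      have a1 := hm hk.1
      have a2 := hm hk.2
      simp only [mem_filter, mem_univ, true_and]
      exact ⟨y j, ⟨a2, by linarith⟩, rfl⟩
    have hc := (card_le_card hsub).trans (hload _)
    rw [Fin.card_Icc] at hc
    have := Nat.le_of_dvd (by omega) hdvd
    omega
  · have hts : t = s + lam := by simp at hz; linarith
    have hsub : Iic i ∪ Ici j ⊆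
        univ.filter (fun k => ((y i : ℝ) : AddCircle lam) ∈ arc lam (y k)) := by
      intro k hk
      simp only [mem_filter, mem_univ, true_and]
      rcases mem_union.1 hk with hk | hk
      · have a1 := hm (mem_Iic.1 hk)
        have a2 := h0 k
        exact ⟨y i, ⟨a1, by linarith⟩, rfl⟩
      · have a1 := hm (mem_Ici.1 hk)
        have a2 := h1 k
        refine ⟨y i + ((1 : ℤ) : ℝ) * lam, ⟨by push_cast; linarith, by push_cast; linarith⟩, ?_⟩
        exact coe_shift lam (y i) 1
    have hdis : Disjoint (Iic i) (Ici j) := by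
      rw [disjoint_left]
      intro k hk1 hk2
      exact absurd ((mem_Ici.1 hk2).trans (mem_Iic.1 hk1)) (not_le.2 hij)
    have hc := (card_le_card hsub).trans (hload _)
    rw [card_union_of_disjoint hdis, Fin.card_Iic, Fin.card_Ici] at hc
    have hjM := j.2
    have h3 : L ∣ M - (j.1 - i.1) := Nat.dvd_sub hd hdvd
    have := Nat.le_of_dvd (by omega) h3
    omega

lemma core2 {lam : ℝ} (hl : 2 ≤ lam) {ι : Type} [Fintype ι] {L : ℕ} (hL : 0 < L)
    (hd : L ∣ Fintype.card ι) (F : ι → Set (AddCircle lam)) (hF : ∀ i, IsUnitArc lam (F i))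
    (hload : ∀ p : AddCircle lam, (univ.filter (fun i => p ∈ F i)).card ≤ L) :
    ∃ c : ι → Fin L, ∀ i j, i ≠ j → (F i ∩ F j).Nonempty → c i ≠ c j := by
  choose x hx0 hx1 hx using fun i => norm_arc hl (hF i)
  let e := (Fintype.equivFin ι).symm
  let σ := Tuple.sort (x ∘ e)
  let g : Fin (Fintype.card ι) ≃ ι := σ.trans e
  have hm : Monotone (x ∘ g) := Tuple.monotone_sort (x ∘ e)
  have hload' : ∀ p : AddCircle lam,
      (univ.filter (fun i => p ∈ arc lam ((x ∘ g) i))).card ≤ L := by
    intro p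
    refine le_trans (le_of_eq ?_) (hload p)
    refine card_bijective g g.bijective ?_
    intro i
    simp only [mem_filter, mem_univ, true_and, Function.comp]
    rw [hx]
  have key := core hl hd (x ∘ g) hm (fun i => hx0 _) (fun i => hx1 _) hload'
  refine ⟨fun i => ⟨(g.symm i).1 % L, Nat.mod_lt _ hL⟩, ?_⟩
  intro i j hij hn hc
  have hc' : (g.symm i).1 % L = (g.symm j).1 % L := congrArg Fin.val hc
  have hne : g.symm i ≠ g.symm j := fun h => hij (g.symm.injective h)
  have hi : arc lam ((x ∘ g) (g.symm i)) = F i := by simp [← hx]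
  have hj : arc lam ((x ∘ g) (g.symm j)) = F j := by simp [← hx]
  rcases lt_or_gt_of_ne hne with h | h
  · exact key _ _ h (by rw [hi, hj]; exact hn) hc'
  · exact key _ _ h (by rw [hi, hj, Set.inter_comm]; exact hn) hc'.symm

lemma multi {lam : ℝ} (hl : 2 ≤ lam) (A : Finset (Set (AddCircle lam)))
    (hA : ∀ S ∈ A, IsUnitArc lam S) (L : ℕ) (B : Fin (L + 1) → Set (AddCircle lam))
    (hB : ∀ i, IsUnitArc lam (B i))
    (h : ∀ p : AddCircle lam,
      (A.filter (fun S => p ∈ S)).card + (univ.filter (fun i => p ∈ B i)).card ≤ L) :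
    chi A ≤ L := by
  have hL : 0 < L := by
    obtain ⟨x, hx⟩ := hB 0
    have h1 := h (x : AddCircle lam)
    have h2 : 0 < (univ.filter (fun i => (x : AddCircle lam) ∈ B i)).card := by
      refine card_pos.2 ⟨0, ?_⟩
      simp only [mem_filter, mem_univ, true_and]
      rw [hx]
      exact ⟨x, ⟨le_rfl, by linarith⟩, rfl⟩
    omega
  have hr : L - A.card % L ≤ L + 1 := by omega
  let F : A ⊕ Fin (L - A.card % L) → Set (AddCircle lam) :=
    Sum.elim (fun S => S.1) (fun i => B (Fin.castLE hr i))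
  have hd : L ∣ Fintype.card (A ⊕ Fin (L - A.card % L)) := by
    rw [Fintype.card_sum, Fintype.card_coe, Fintype.card_fin]
    have h1 := Nat.mod_lt A.card hL
    have h2 := Nat.div_add_mod A.card L
    refine ⟨A.card / L + 1, ?_⟩
    rw [Nat.mul_add]
    omega
  have hF : ∀ i, IsUnitArc lam (F i) := by
    rintro (S | i)
    · exact hA S.1 S.2
    · exact hB _
  have hload : ∀ p : AddCircle lam, (univ.filter (fun i => p ∈ F i)).card ≤ L := by
    intro p
    refine le_trans ?_ (h p)
    rw [← card_disjSum]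
    refine card_le_card_of_injOn (Sum.map (fun S => S.1) (Fin.castLE hr)) ?_ ?_
    · rintro (S | i) hi
      · simp only [coe_filter, mem_univ, true_and, Set.mem_setOf_eq, F, Sum.elim_inl] at hi
        simp [hi]
      · simp only [coe_filter, mem_univ, true_and, Set.mem_setOf_eq, F, Sum.elim_inr] at hi
        simp [hi]
    · exact (Function.Injective.sumMap Subtype.val_injective (Fin.castLE_injective hr)).injOn
  obtain ⟨c, hc⟩ := core2 hl hL hd F hF hload
  refine Nat.sInf_le ⟨fun S => c (Sum.inl S), ?_⟩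
  intro S T hST hn
  exact hc _ _ (fun e => hST (Sum.inl_injective e)) hn

lemma le_load {lam : ℝ} (A : Finset (Set (AddCircle lam))) (p : AddCircle lam) :
    (A.filter (fun S => p ∈ S)).card ≤ load A := by
  refine le_csSup ⟨A.card, ?_⟩ ⟨p, rfl⟩
  rintro n ⟨q, rfl⟩
  exact card_filter_le _ _

theorem result :
    (∀ (lam : ℝ), 2 ≤ lam → ∀ (A : Finset (Set (AddCircle lam))),
      (∀ S ∈ A, IsUnitArc lam S) →
      ∀ (B : Fin (load A + 1) → Set (AddCircle lam)), (∀ i, IsUnitArc lam (B i)) →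
        (∀ i j, i ≠ j → Disjoint (B i) (B j)) → (∀ i, B i ∉ A) →
        load (A ∪ univ.image B) = load A → chi A ≤ load A) ∧
    (∀ (lam : ℝ), 2 ≤ lam → ∀ (A : Finset (Set (AddCircle lam))),
      (∀ S ∈ A, IsUnitArc lam S) →
      ∀ (B : Fin (load A + 1) → Set (AddCircle lam)), (∀ i, IsUnitArc lam (B i)) →
        (∀ p : AddCircle lam, (A.filter (fun S => p ∈ S)).card
          + (univ.filter (fun i => p ∈ B i)).card ≤ load A) → chi A ≤ load A) := by
  refine ⟨?_, fun lam hl A hA B hB h => multi hl A hA _ B hB h⟩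
  intro lam hl A hA B hB hdis hnew hload
  refine multi hl A hA _ B hB ?_
  intro p
  have hinj : Function.Injective B := by
    intro i j hij
    by_contra hne
    have h1 := hdis i j hne
    rw [hij, disjoint_self] at h1
    obtain ⟨x, hx⟩ := hB j
    have : (x : AddCircle lam) ∈ B j := by
      rw [hx]; exact ⟨x, ⟨le_rfl, by linarith⟩, rfl⟩
    rw [h1] at this
    exact this
  refine le_trans (le_of_eq ?_) ((le_load (A ∪ univ.image B) p).trans hload.le)
  rw [filter_union, card_union_of_disjoint, filter_image, card_image_of_injective _ hinj]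
  rw [disjoint_left]
  intro S h1 h2
  obtain ⟨i, -, rfl⟩ := mem_image.1 (mem_filter.1 h2).1
  exact hnew i (mem_filter.1 h1).1

end Pool.Agent.Results.MP_7d4b8e_co.Padding
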